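import Mathlib
import Pool.Agent.Lib.MP_14e06f_lc.Main

set_option autoImplicit false

namespace Pool.Agent.Results.MP_14e06f_lc.LockedIffThreeColorable

open Pool.Agent.Lib.MP_14e06f_lc

theorem len_mem {n : ℕ} (H : SimpleGraph (Fin n)) (x y : Vx H) :
    barLen H x y = 1 ∨ barLen H x y = 2 ∨ barLen H x y = 10 ∨ barLen H x y = 7 + 1 / (n + 1) := by
  have hif : ∀ (P : Prop) [Decidable P], (if P then (10 : ℚ) else 7 + 1 / (n + 1)) = 1 ∨
      (if P then (10 : ℚ) else 7 + 1 / (n + 1)) = 2 ∨
      (if P then (10 : ℚ) else 7 + 1 / (n + 1)) = 10 ∨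
      (if P then (10 : ℚ) else 7 + 1 / (n + 1)) = 7 + 1 / (n + 1) := by
    intro P _
    by_cases h : P
    · rw [if_pos h]; exact Or.inr (Or.inr (Or.inl rfl))
    · rw [if_neg h]; exact Or.inr (Or.inr (Or.inr rfl))
  cases x <;> cases y <;> first | exact Or.inl rfl | exact Or.inr (Or.inl rfl) | exact hif _

theorem card_le {n : ℕ} (H : SimpleGraph (Fin n)) : Nat.card (Vx H) ≤ n ^ 2 + n + 5 := by
  let f : Vx H → (Unit ⊕ Unit) ⊕ (Fin n ⊕ ((Fin n × Fin n) ⊕ Fin 3)) := fun x => match x with
    | .a => Sum.inl (Sum.inl ())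
    | .b => Sum.inl (Sum.inr ())
    | .v i => Sum.inr (Sum.inl i)
    | .m i j _ _ => Sum.inr (Sum.inr (Sum.inl (i, j)))
    | .t k => Sum.inr (Sum.inr (Sum.inr k))
  have hf : Function.Injective f := by
    intro x y hxy
    cases x <;> cases y <;> simp_all [f]
  have h := Nat.card_le_card_of_injective f hf
  refine h.trans (le_of_eq ?_)
  simp only [Nat.card_eq_fintype_card, Fintype.card_sum, Fintype.card_prod, Fintype.card_fin,
    Fintype.card_unit]
  ring

theorem connected {n : ℕ} (H : SimpleGraph (Fin n)) : (linkageOf H).graph.Connected := by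
  have hab : (linkageOf H).graph.Adj Vx.a Vx.b := adj_iff.2 (Or.inl Bar.ab)
  have hav : ∀ i, (linkageOf H).graph.Adj Vx.a (Vx.v i) := fun i => adj_iff.2 (Or.inl (Bar.av i))
  have hat : ∀ k, (linkageOf H).graph.Adj Vx.a (Vx.t k) := fun k => adj_iff.2 (Or.inl (Bar.at k))
  have key : ∀ x : Vx H, (linkageOf H).graph.Reachable Vx.a x := by
    intro x
    cases x with
    | a => exact SimpleGraph.Reachable.refl _
    | b => exact hab.reachable
    | v i => exact (hav i).reachable
    | m i j hij h =>
      have hb := Bar.vm (H := H) i j hij h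
      have hvm : (linkageOf H).graph.Adj (Vx.v i) (Vx.m i j hij h) :=
        adj_iff.2 (Or.inl (by rw [hb.isBar.2]; exact hb))
      exact (hav i).reachable.trans hvm.reachable
    | t k => exact (hat k).reachable
  exact { preconnected := fun x y => (key x).symm.trans (key y), nonempty := ⟨Vx.a⟩ }

/-- **The reduction.** For every graph `H` on `n` vertices the explicitly given linkage
`linkageOf H` is connected, has at most `n² + n + 5` vertices and only the bar lengths
`1, 2, 10, 7 + 1/(n+1)`, and it is locked in `ℝ³` if and only if `H` is `3`-colourable. -/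
theorem result (n : ℕ) (H : SimpleGraph (Fin n)) :
    (linkageOf H).graph.Connected ∧ Nat.card (linkageOf H).V ≤ n ^ 2 + n + 5 ∧
    (∀ x y, (linkageOf H).len x y = 1 ∨ (linkageOf H).len x y = 2 ∨ (linkageOf H).len x y = 10 ∨
      (linkageOf H).len x y = 7 + 1 / (n + 1)) ∧
    ((linkageOf H).Locked ↔ H.Colorable 3) :=
  ⟨connected H, card_le H, len_mem H, locked_iff_colorable H⟩

end Pool.Agent.Results.MP_14e06f_lc.LockedIffThreeColorable
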