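import Mathlib
import Pool.Agent.Lib.MP_14e06f_lc.Plane.Main
import Pool.Agent.Lib.MP_14e06f_lc.Plane.Conn

set_option autoImplicit false

/-!
# Deciding whether a planar linkage is locked is `PSPACE`-hard

All definitions used in the statement are in `Pool.Agent.Lib.MP_14e06f_lc.Plane.Problem` and
`Pool.Agent.Lib.MP_0f8b55_lc.Defs`.
-/

namespace Pool.Agent.Results.MP_14e06f_lc.PlanarLockedPSPACEHard

open Pool.Agent.Lib.MP_0f8b55_lc LockPl

/-- **Deciding whether a linkage is locked in the plane is `PSPACE`-hard**: there is a polynomial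
time many-one reduction `f` from `TQBF` to `LOCKED`. Moreover, every linkage `f I` is connected, has
a configuration, and all its bars have an integer length at most `3400`. -/
theorem result : ∃ f : TQBF.Inst → LOCKED.Inst,
    Nonempty (Turing.TM2ComputableInPolyTime TQBF.enc LOCKED.enc f) ∧
    ∀ I, (TQBF.Yes I ↔ LOCKED.Yes (f I)) ∧ (∀ b ∈ (f I).1, b.2.1 ≤ 3400 ∧ b.2.2 = 1) ∧
      ((f I).1.linkage (f I).2).graph.Connected ∧ ∃ p, ((f I).1.linkage (f I).2).IsConfig p :=
  main mesh_connected

end Pool.Agent.Results.MP_14e06f_lc.PlanarLockedPSPACEHard
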