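import Mathlib
import Pool.Agent.Lib.MP_14e06f_lc.Spider.Crit

set_option autoImplicit false

/-!
# When is a spider locked?

All definitions used in the statement are in `Pool.Agent.Lib.MP_14e06f_lc.Spider.Leg` (`Leg`, `phi`,
`psi`), `Pool.Agent.Lib.MP_14e06f_lc.Spider.Geo` (`SV`, `st`, `bl`, `num`, `Sp`) and
`Pool.Agent.Lib.MP_14e06f_lc.Spider.Defs` (`turn`). The Euclidean plane is `ℂ`, all lengths are real.
-/

namespace Pool.Agent.Results.MP_14e06f_lc.SpiderLockedIff

open LockTree Real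

/-- **The locked spiders.** A spider with real lengths, whose legs have three bars `x, y, u` with
`y < u`, `u ^ 2 + y ^ 2 < x ^ 2`, `x < y + u` and are separated by long bars, is locked if and only
if there is a nonempty set `S` of legs with `∑ φ < 2π ≤ ∑ φ + (ψ i - φ i)` for every `i` in `S`. -/
theorem result {N : ℕ} (hN : 0 < N) (L : Fin N → Leg) {A : ℝ}
    (hA : ∀ i, (L i).x + (L i).y + (L i).u < A) :
    (∃ p ∈ Sp L A, ∃ q ∈ Sp L A, ¬ JoinedIn (Sp L A) p q) ↔
      ∃ S : Finset (Fin N), S.Nonempty ∧ ∑ i ∈ S, (L i).phi < 2 * π ∧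
        ∀ i ∈ S, 2 * π ≤ ∑ j ∈ S, (L j).phi + ((L i).psi - (L i).phi) :=
  crit hN L hA

end Pool.Agent.Results.MP_14e06f_lc.SpiderLockedIff
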