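import Mathlib
import Pool.Agent.Lib.MP_14e06f_lc.Spider.Fin

set_option autoImplicit false

/-!
# Deciding whether a plane tree linkage is locked is NP-hard

All definitions used in the statement are in `Pool.Agent.Lib.MP_14e06f_lc.Spider.Defs`,
`Pool.Agent.Lib.MP_14e06f_lc.Spider.Geo`, `Pool.Agent.Lib.MP_14e06f_lc.Plane.Problem` and
`Pool.Agent.Lib.MP_0f8b55_lc.Defs`.
-/

namespace Pool.Agent.Results.MP_14e06f_lc.TreeLockedNPHard

open Pool.Agent.Lib.MP_0f8b55_lc LockPl LockTree

/-- **Deciding whether a plane tree linkage is locked is NP-hard**: there is a polynomial time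
many-one reduction `f` from `SUBSET SUM` to `TREELOCKED`, and all trees `f I` are spiders: around
the only branch vertex there are alternately a single bar and a leg of three bars. -/
theorem result :
    ∃ f : SUBSETSUM.Inst → TREELOCKED.Inst,
      Nonempty (Turing.TM2ComputableInPolyTime SUBSETSUM.enc TREELOCKED.enc f) ∧
      ∀ I, (SUBSETSUM.Yes I ↔ TREELOCKED.Yes (f I)) ∧
        ∃ A Ls, SpData A Ls ∧ (f I).1 = spCode A Ls :=
  main

end Pool.Agent.Results.MP_14e06f_lc.TreeLockedNPHard
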